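import Mathlib

/-!
Definitions and statements for MP_09c31c_an (locally univalent absolutely convergent power series
with boundary curve of positive area).
-/

open Polynomial

namespace Pool.Agent.H337_area

/-- sum of the moduli of the coefficients -/
noncomputable def l1 (P : ℂ[X]) : ℝ := ∑ i ∈ P.support, ‖P.coeff i‖

/-- weighted sum of the moduli of the coefficients -/
noncomputable def l1w (P : ℂ[X]) : ℝ := ∑ i ∈ P.support, ((i : ℝ) + 1) * ‖P.coeff i‖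

/-- `∑_{1 ≤ j ≤ m} C(m,j) w^j / j` -/
noncomputable def Gm (m : ℕ) (w : ℂ) : ℂ :=
  ∑ j ∈ Finset.Icc 1 m, (m.choose j : ℂ) * w ^ j / (j : ℂ)

/-- the primitive of `P ((1 + X^n)^m - 1)` -/
noncomputable def Dp (P : ℂ[X]) (m n : ℕ) : ℂ[X] :=
  ∑ i ∈ P.support, ∑ j ∈ Finset.Icc 1 m,
    Polynomial.monomial (i + j * n + 1) (P.coeff i * (m.choose j : ℂ) / ((i + j * n + 1 : ℕ) : ℂ))

/-- `u` is at distance between `lam/8 |P(z)|` and `lam |P(z)|` from `F(z)` -/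
def Good (P F : ℂ[X]) (lam : ℝ) (u z : ℂ) : Prop :=
  ‖z‖ = 1 ∧ 1 ≤ ‖P.eval z‖ ∧ lam / 8 * ‖P.eval z‖ ≤ ‖u - F.eval z‖ ∧
    ‖u - F.eval z‖ ≤ lam * ‖P.eval z‖

/-- the spiral net -/
def S_NET : Prop :=
  ∀ m : ℕ, 2 ≤ m → ∀ ξ : ℂ, ‖ξ‖ ≤ 1 →
    ∃ w : ℂ, ‖w‖ = 1 ∧
      ‖(1 + w) ^ (m + 1) / (2 ^ (m + 1) * w) - ξ‖ ≤ 2 * Real.pi * Real.sqrt (m + 1) / (m - 1)

/-- estimates for `Gm` -/
def S_GAP : Prop :=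
  ∀ m : ℕ, 1 ≤ m →
    (∀ w : ℂ, ‖w‖ = 1 →
      ‖w * Gm m w - (1 + w) ^ (m + 1) / (m + 1)‖ ≤ 2 + 12 * 2 ^ m / ((m + 1) * (m + 2)) ∧
      ‖Gm m w‖ ≤ 4 * 2 ^ m / (m + 1))

/-- estimates for `Dp` -/
def S_DAP : Prop :=
  ∀ (P : ℂ[X]) (m n : ℕ), 1 ≤ m → 1 ≤ n →
    derivative (Dp P m n) = P * ((1 + X ^ n) ^ m - 1) ∧
    l1 (Dp P m n) ≤ l1 P * (4 * 2 ^ m / ((m + 1) * n)) ∧
    ∀ z : ℂ, ‖z‖ = 1 →
      ‖(Dp P m n).eval z - z * P.eval z * Gm m (z ^ n) / n‖ ≤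
        l1w P * (24 * 2 ^ m / ((m + 1) * (m + 2) * n ^ 2))

/-- the step -/
def S_STEP : Prop :=
  ∀ (P F : ℂ[X]) (lam : ℝ), 0 < lam → derivative F = P → ∀ M : ℕ,
    ∃ (m n : ℕ) (lam' : ℝ), 1 ≤ m ∧ M * m ≤ n ∧ 0 < lam' ∧ lam' * 2 ^ m ≤ lam / 2 ∧
      2 ^ m / ((m + 1) * n) ≤ lam ∧ 1 ≤ n ∧
      ∀ u z : ℂ, Good P F lam u z →
        ∃ z', Good (P * (1 + X ^ n) ^ m) (F + Dp P m n) lam' u z'

/-- the limit argument -/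
def S_LIM : Prop :=
  ∀ (P F : ℕ → ℂ[X]) (m n : ℕ → ℕ) (lam : ℕ → ℝ),
    P 0 = 1 → F 0 = X → lam 0 = 1 →
    (∀ k, P (k + 1) = P k * (1 + X ^ (n k)) ^ (m k)) →
    (∀ k, F (k + 1) = F k + Dp (P k) (m k) (n k)) →
    (∀ k, derivative (F k) = P k) →
    (∀ k, 0 < lam k) → (∀ k, lam (k + 1) * 2 ^ (m k) ≤ lam k / 2) →
    (∀ k, 2 ^ (m k) / ((m k + 1) * n k) ≤ lam k) →
    (∀ k, 1 ≤ m k ∧ 1 ≤ n k ∧ (k + 1) * m k ≤ n k) →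
    (∀ k u z, Good (P k) (F k) (lam k) u z →
      ∃ z', Good (P (k + 1)) (F (k + 1)) (lam (k + 1)) u z') →
    ∃ a : ℕ → ℂ, Summable (fun n => ‖a n‖) ∧
      (∀ z : ℂ, ‖z‖ < 1 → deriv (fun w : ℂ => ∑' n, a n * w ^ n) z ≠ 0) ∧
      MeasureTheory.volume ((fun w : ℂ => ∑' n, a n * w ^ n) '' Metric.sphere (0 : ℂ) 1) ≠ 0

end Pool.Agent.H337_area
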