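import Mathlib
import Pool.Agent.H337_area.Defs

set_option autoImplicit false

namespace Pool.Agent.H337_area

open Polynomial

theorem dap_l1_eq (P : ℂ[X]) (s : Finset ℕ) (hs : P.support ⊆ s) :
    l1 P = ∑ i ∈ s, ‖P.coeff i‖ := by
  unfold l1
  refine Finset.sum_subset hs ?_
  intro i _ hi
  rw [Polynomial.notMem_support_iff.1 hi, norm_zero]

theorem dap_l1_add (P Q : ℂ[X]) : l1 (P + Q) ≤ l1 P + l1 Q := by
  classical
  rw [dap_l1_eq (P + Q) (P.support ∪ Q.support) Polynomial.support_add,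
    dap_l1_eq P (P.support ∪ Q.support) Finset.subset_union_left,
    dap_l1_eq Q (P.support ∪ Q.support) Finset.subset_union_right, ← Finset.sum_add_distrib]
  refine Finset.sum_le_sum fun i _ => ?_
  rw [Polynomial.coeff_add]
  exact norm_add_le _ _

theorem dap_l1_zero : l1 0 = 0 := by
  simp [l1]

theorem dap_l1_sum {ι : Type} (s : Finset ι) (f : ι → ℂ[X]) :
    l1 (∑ a ∈ s, f a) ≤ ∑ a ∈ s, l1 (f a) := by
  classical
  induction s using Finset.induction_on with
  | empty => simp [dap_l1_zero]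
  | insert a s ha ih =>
    rw [Finset.sum_insert ha, Finset.sum_insert ha]
    exact (dap_l1_add _ _).trans (by linarith)

theorem dap_l1_mono (k : ℕ) (c : ℂ) : l1 (Polynomial.monomial k c) ≤ ‖c‖ := by
  by_cases hc : c = 0
  · simp [hc, dap_l1_zero]
  · unfold l1
    rw [Polynomial.support_monomial k hc]
    simp

/-- `∑ C(m,j) / (j+1) ≤ 2^(m+1) / (m+1)` -/
theorem dap_c1 (m j : ℕ) :
    (m.choose j : ℝ) / (j + 1) = ((m + 1).choose (j + 1) : ℝ) / (m + 1) := by
  have h : ((m : ℝ) + 1) * m.choose j = (m + 1).choose (j + 1) * (j + 1) := by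
    exact_mod_cast Nat.add_one_mul_choose_eq m j
  have h1 : (j : ℝ) + 1 ≠ 0 := by positivity
  have h2 : (m : ℝ) + 1 ≠ 0 := by positivity
  field_simp
  linarith

theorem dap_c2 (m j : ℕ) :
    (m.choose j : ℝ) / ((j + 1) * (j + 2)) =
      ((m + 2).choose (j + 2) : ℝ) / ((m + 1) * (m + 2)) := by
  have h : ((m : ℝ) + 1) * m.choose j = (m + 1).choose (j + 1) * (j + 1) := by
    exact_mod_cast Nat.add_one_mul_choose_eq m j
  have h' : ((m : ℝ) + 2) * (m + 1).choose (j + 1) = (m + 2).choose (j + 2) * (j + 2) := by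
    have h3 : (((m + 1 : ℕ) : ℝ) + 1) * ((m + 1).choose (j + 1) : ℝ) =
      ((m + 1 + 1).choose (j + 1 + 1) : ℝ) * (((j + 1 : ℕ) : ℝ) + 1) := by
      exact_mod_cast Nat.add_one_mul_choose_eq (m + 1) (j + 1)
    push_cast at h3
    have e1 : ((m + 1 + 1).choose (j + 1 + 1)) = (m + 2).choose (j + 2) := rfl
    rw [e1] at h3
    linarith
  have h1 : (j : ℝ) + 1 ≠ 0 := by positivity
  have h2 : (m : ℝ) + 1 ≠ 0 := by positivity
  have h3 : (j : ℝ) + 2 ≠ 0 := by positivity
  have h4 : (m : ℝ) + 2 ≠ 0 := by positivity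
  rw [div_eq_div_iff (mul_ne_zero h1 h3) (mul_ne_zero h2 h4)]
  calc (m.choose j : ℝ) * ((m + 1) * (m + 2)) = ((m : ℝ) + 2) * (((m : ℝ) + 1) * m.choose j) := by
        ring
    _ = ((m : ℝ) + 2) * ((m + 1).choose (j + 1)) * (j + 1) := by rw [h]; ring
    _ = _ := by rw [h']; ring

theorem dap_tot (N : ℕ) (s : Finset ℕ) (d : ℕ) (hs : ∀ j ∈ s, j + d ≤ N) :
    ∑ j ∈ s, (N.choose (j + d) : ℝ) ≤ 2 ^ N := by
  classical
  have h1 : ∑ j ∈ s, N.choose (j + d) = ∑ k ∈ s.map ⟨fun j => j + d, add_left_injective d⟩,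
      N.choose k := by
    rw [Finset.sum_map]; rfl
  have h2 : ∑ j ∈ s, N.choose (j + d) ≤ 2 ^ N := by
    rw [h1, ← Nat.sum_range_choose N]
    refine Finset.sum_le_sum_of_subset ?_
    intro k hk
    rw [Finset.mem_map] at hk
    obtain ⟨j, hj, rfl⟩ := hk
    rw [Finset.mem_range]
    exact Nat.lt_succ_of_le (hs j hj)
  exact_mod_cast h2

theorem dap_s1 (m : ℕ) :
    ∑ j ∈ Finset.Icc 1 m, (m.choose j : ℝ) / j ≤ 4 * 2 ^ m / (m + 1) := by
  have h1 : ∀ j ∈ Finset.Icc 1 m, (m.choose j : ℝ) / j ≤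
      2 * (((m + 1).choose (j + 1) : ℝ) / (m + 1)) := by
    intro j hj
    rw [← dap_c1]
    have hj1 : (1 : ℝ) ≤ j := by exact_mod_cast (Finset.mem_Icc.1 hj).1
    rw [← mul_div_assoc, div_le_div_iff₀ (by linarith) (by linarith)]
    have h0 : (0 : ℝ) ≤ m.choose j := Nat.cast_nonneg _
    nlinarith
  refine (Finset.sum_le_sum h1).trans ?_
  rw [← Finset.mul_sum, ← Finset.sum_div]
  have h2 := dap_tot (m + 1) (Finset.Icc 1 m) 1 (by
    intro j hj
    have := (Finset.mem_Icc.1 hj).2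
    omega)
  have h3 : (0 : ℝ) < m + 1 := by positivity
  rw [← mul_div_assoc]
  refine div_le_div_of_nonneg_right ?_ h3.le
  rw [pow_succ] at h2
  linarith

theorem dap_s2 (m : ℕ) :
    ∑ j ∈ Finset.Icc 1 m, (m.choose j : ℝ) / (j : ℝ) ^ 2 ≤
      24 * 2 ^ m / ((m + 1) * (m + 2)) := by
  have h1 : ∀ j ∈ Finset.Icc 1 m, (m.choose j : ℝ) / (j : ℝ) ^ 2 ≤
      6 * (((m + 2).choose (j + 2) : ℝ) / ((m + 1) * (m + 2))) := by
    intro j hj
    rw [← dap_c2]
    have hj1 : (1 : ℝ) ≤ j := by exact_mod_cast (Finset.mem_Icc.1 hj).1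
    rw [← mul_div_assoc, div_le_div_iff₀ (by positivity) (by positivity)]
    have h0 : (0 : ℝ) ≤ m.choose j := Nat.cast_nonneg _
    have h2 : ((j : ℝ) + 1) * (j + 2) ≤ 6 * (j : ℝ) ^ 2 := by nlinarith
    calc (m.choose j : ℝ) * (((j : ℝ) + 1) * (j + 2)) ≤ m.choose j * (6 * (j : ℝ) ^ 2) :=
          mul_le_mul_of_nonneg_left h2 h0
      _ = 6 * (m.choose j : ℝ) * (j : ℝ) ^ 2 := by ring
  refine (Finset.sum_le_sum h1).trans ?_
  rw [← Finset.mul_sum, ← Finset.sum_div]
  have h2 := dap_tot (m + 2) (Finset.Icc 1 m) 2 (by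
    intro j hj
    have := (Finset.mem_Icc.1 hj).2
    omega)
  have h3 : (0 : ℝ) < (m + 1) * (m + 2) := by positivity
  rw [← mul_div_assoc]
  refine div_le_div_of_nonneg_right ?_ h3.le
  rw [pow_add] at h2
  linarith

theorem dap_deriv (P : ℂ[X]) (m n : ℕ) :
    derivative (Dp P m n) = P * ((1 + X ^ n) ^ m - 1) := by
  have h1 : ((1 + X ^ n) ^ m - 1 : ℂ[X]) =
      ∑ j ∈ Finset.Icc 1 m, Polynomial.monomial (j * n) (m.choose j : ℂ) := by
    rw [add_comm (1 : ℂ[X]) (X ^ n), add_pow]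
    have hr : Finset.range (m + 1) = insert 0 (Finset.Icc 1 m) := by
      ext k
      simp only [Finset.mem_range, Finset.mem_insert, Finset.mem_Icc]
      omega
    rw [hr, Finset.sum_insert (by simp)]
    simp only [pow_zero, one_pow, mul_one, Nat.choose_zero_right, Nat.cast_one]
    rw [add_sub_cancel_left]
    refine Finset.sum_congr rfl fun j _ => ?_
    rw [← Polynomial.C_mul_X_pow_eq_monomial, ← pow_mul, mul_comm n j, mul_comm]
    simp
  rw [h1]
  conv_rhs => rw [P.as_sum_support]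
  unfold Dp
  rw [Polynomial.derivative_sum, Finset.sum_mul]
  refine Finset.sum_congr rfl fun i _ => ?_
  rw [Polynomial.derivative_sum, Finset.mul_sum]
  refine Finset.sum_congr rfl fun j _ => ?_
  rw [Polynomial.derivative_monomial, Polynomial.monomial_mul_monomial]
  have h2 : ((i + j * n + 1 : ℕ) : ℂ) ≠ 0 := Nat.cast_ne_zero.2 (by omega)
  rw [div_mul_cancel₀ _ h2]
  congr 1

theorem t_DAP : S_DAP := by
  intro P m n hm hn
  have hn0 : (0 : ℝ) < n := by exact_mod_cast hn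
  refine ⟨dap_deriv P m n, ?_, ?_⟩
  · unfold Dp
    refine (dap_l1_sum _ _).trans ?_
    have h1 : ∀ i ∈ P.support, l1 (∑ j ∈ Finset.Icc 1 m,
        Polynomial.monomial (i + j * n + 1)
          (P.coeff i * (m.choose j : ℂ) / ((i + j * n + 1 : ℕ) : ℂ))) ≤
        ‖P.coeff i‖ * (4 * 2 ^ m / ((m + 1) * n)) := by
      intro i _
      refine (dap_l1_sum _ _).trans ?_
      have h2 : ∀ j ∈ Finset.Icc 1 m, l1 (Polynomial.monomial (i + j * n + 1)
          (P.coeff i * (m.choose j : ℂ) / ((i + j * n + 1 : ℕ) : ℂ))) ≤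
          ‖P.coeff i‖ / n * ((m.choose j : ℝ) / j) := by
        intro j hj
        have hj1 : (1 : ℝ) ≤ j := by exact_mod_cast (Finset.mem_Icc.1 hj).1
        refine (dap_l1_mono _ _).trans ?_
        rw [norm_div, norm_mul, Complex.norm_natCast, Complex.norm_natCast]
        have h3 : (j : ℝ) * n ≤ ((i + j * n + 1 : ℕ) : ℝ) := by
          push_cast
          have : (0 : ℝ) ≤ i := Nat.cast_nonneg _
          linarith
        have h4 : (0 : ℝ) < (j : ℝ) * n := by positivity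
        calc ‖P.coeff i‖ * (m.choose j : ℝ) / ((i + j * n + 1 : ℕ) : ℝ)
            ≤ ‖P.coeff i‖ * (m.choose j : ℝ) / ((j : ℝ) * n) := by
              refine div_le_div_of_nonneg_left (by positivity) h4 h3
          _ = ‖P.coeff i‖ / n * ((m.choose j : ℝ) / j) := by
              field_simp
      refine (Finset.sum_le_sum h2).trans ?_
      rw [← Finset.mul_sum]
      calc ‖P.coeff i‖ / n * ∑ j ∈ Finset.Icc 1 m, (m.choose j : ℝ) / j
          ≤ ‖P.coeff i‖ / n * (4 * 2 ^ m / (m + 1)) :=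
            mul_le_mul_of_nonneg_left (dap_s1 m) (by positivity)
        _ = ‖P.coeff i‖ * (4 * 2 ^ m / ((m + 1) * n)) := by
            field_simp
    refine (Finset.sum_le_sum h1).trans ?_
    rw [← Finset.sum_mul]
    rfl
  · intro z hz
    have hn0' : (n : ℂ) ≠ 0 := Nat.cast_ne_zero.2 (by omega)
    have hz0 : z ≠ 0 := by
      intro h
      rw [h, norm_zero] at hz
      exact zero_ne_one hz
    have e1 : (Dp P m n).eval z = ∑ i ∈ P.support, ∑ j ∈ Finset.Icc 1 m,
        (P.coeff i * (m.choose j : ℂ) / ((i + j * n + 1 : ℕ) : ℂ)) * z ^ (i + j * n + 1) := by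
      unfold Dp
      rw [Polynomial.eval_finsetSum]
      refine Finset.sum_congr rfl fun i _ => ?_
      rw [Polynomial.eval_finsetSum]
      refine Finset.sum_congr rfl fun j _ => ?_
      rw [Polynomial.eval_monomial]
    have e2 : z * P.eval z * Gm m (z ^ n) / n = ∑ i ∈ P.support, ∑ j ∈ Finset.Icc 1 m,
        (P.coeff i * (m.choose j : ℂ) / ((j : ℂ) * n)) * z ^ (i + j * n + 1) := by
      rw [Polynomial.eval_eq_sum, Polynomial.sum_def, Finset.mul_sum, Finset.sum_mul,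
        Finset.sum_div]
      refine Finset.sum_congr rfl fun i _ => ?_
      unfold Gm
      rw [Finset.mul_sum, Finset.sum_div]
      refine Finset.sum_congr rfl fun j hj => ?_
      have hj0 : (j : ℂ) ≠ 0 := Nat.cast_ne_zero.2 (by
        have := (Finset.mem_Icc.1 hj).1
        omega)
      rw [← pow_mul, mul_comm n j, pow_succ, pow_add]
      field_simp
    rw [e1, e2, ← Finset.sum_sub_distrib]
    refine (norm_sum_le _ _).trans ?_
    have h1 : ∀ i ∈ P.support, ‖(∑ j ∈ Finset.Icc 1 m,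
        (P.coeff i * (m.choose j : ℂ) / ((i + j * n + 1 : ℕ) : ℂ)) * z ^ (i + j * n + 1)) -
        ∑ j ∈ Finset.Icc 1 m,
        (P.coeff i * (m.choose j : ℂ) / ((j : ℂ) * n)) * z ^ (i + j * n + 1)‖ ≤
        (((i : ℝ) + 1) * ‖P.coeff i‖) * (24 * 2 ^ m / ((m + 1) * (m + 2) * n ^ 2)) := by
      intro i _
      rw [← Finset.sum_sub_distrib]
      refine (norm_sum_le _ _).trans ?_
      have h2 : ∀ j ∈ Finset.Icc 1 m,
          ‖(P.coeff i * (m.choose j : ℂ) / ((i + j * n + 1 : ℕ) : ℂ)) * z ^ (i + j * n + 1) -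
            (P.coeff i * (m.choose j : ℂ) / ((j : ℂ) * n)) * z ^ (i + j * n + 1)‖ ≤
          (((i : ℝ) + 1) * ‖P.coeff i‖) / (n : ℝ) ^ 2 * ((m.choose j : ℝ) / (j : ℝ) ^ 2) := by
        intro j hj
        have hj1 : (1 : ℝ) ≤ j := by exact_mod_cast (Finset.mem_Icc.1 hj).1
        have hj0 : (j : ℂ) ≠ 0 := Nat.cast_ne_zero.2 (by
          have := (Finset.mem_Icc.1 hj).1
          omega)
        have hs0 : ((i + j * n + 1 : ℕ) : ℂ) ≠ 0 := Nat.cast_ne_zero.2 (by omega)
        have e3 : (P.coeff i * (m.choose j : ℂ) / ((i + j * n + 1 : ℕ) : ℂ)) *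
            z ^ (i + j * n + 1) -
            (P.coeff i * (m.choose j : ℂ) / ((j : ℂ) * n)) * z ^ (i + j * n + 1) =
            -(P.coeff i * (m.choose j : ℂ) * (((i + 1 : ℕ) : ℂ) /
              (((i + j * n + 1 : ℕ) : ℂ) * ((j : ℂ) * n))) * z ^ (i + j * n + 1)) := by
          field_simp
          push_cast
          ring
        rw [e3, norm_neg, norm_mul, norm_mul, norm_mul, norm_pow, hz, one_pow, mul_one, norm_div,
          norm_mul, norm_mul]
        simp only [Complex.norm_natCast]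
        have h3 : (j : ℝ) * n ≤ ((i + j * n + 1 : ℕ) : ℝ) := by
          push_cast
          have : (0 : ℝ) ≤ i := Nat.cast_nonneg _
          linarith
        have h4 : (0 : ℝ) < (j : ℝ) * n := by positivity
        have h5 : ((i + 1 : ℕ) : ℝ) / (((i + j * n + 1 : ℕ) : ℝ) * ((j : ℝ) * n)) ≤
            ((i : ℝ) + 1) / (((j : ℝ) * n) * ((j : ℝ) * n)) := by
          push_cast at h3 ⊢
          refine div_le_div_of_nonneg_left (by positivity) (by positivity) ?_
          exact mul_le_mul_of_nonneg_right h3 h4.le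
        calc ‖P.coeff i‖ * (m.choose j : ℝ) *
              (((i + 1 : ℕ) : ℝ) / (((i + j * n + 1 : ℕ) : ℝ) * ((j : ℝ) * n)))
            ≤ ‖P.coeff i‖ * (m.choose j : ℝ) *
              (((i : ℝ) + 1) / (((j : ℝ) * n) * ((j : ℝ) * n))) :=
              mul_le_mul_of_nonneg_left h5 (by positivity)
          _ = (((i : ℝ) + 1) * ‖P.coeff i‖) / (n : ℝ) ^ 2 * ((m.choose j : ℝ) / (j : ℝ) ^ 2) := by
              field_simp
      refine (Finset.sum_le_sum h2).trans ?_
      rw [← Finset.mul_sum]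
      calc (((i : ℝ) + 1) * ‖P.coeff i‖) / (n : ℝ) ^ 2 *
            ∑ j ∈ Finset.Icc 1 m, (m.choose j : ℝ) / (j : ℝ) ^ 2
          ≤ (((i : ℝ) + 1) * ‖P.coeff i‖) / (n : ℝ) ^ 2 * (24 * 2 ^ m / ((m + 1) * (m + 2))) :=
            mul_le_mul_of_nonneg_left (dap_s2 m) (by positivity)
        _ = (((i : ℝ) + 1) * ‖P.coeff i‖) * (24 * 2 ^ m / ((m + 1) * (m + 2) * n ^ 2)) := by
            field_simp
    refine (Finset.sum_le_sum h1).trans ?_
    rw [← Finset.sum_mul]
    rfl

end Pool.Agent.H337_area
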