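import Mathlib
import Pool.Agent.H337_area.Defs

set_option autoImplicit false

namespace Pool.Agent.H337_area

open Polynomial

namespace LIM

open Filter Topology Finset

theorem l1_eq (P : ℂ[X]) (s : Finset ℕ) (h : P.support ⊆ s) : l1 P = ∑ i ∈ s, ‖P.coeff i‖ := by
  unfold l1
  refine Finset.sum_subset h fun i _ hi => ?_
  rw [Polynomial.notMem_support_iff.1 hi, norm_zero]

theorem l1_nonneg (P : ℂ[X]) : 0 ≤ l1 P := Finset.sum_nonneg fun _ _ => norm_nonneg _

theorem l1_add_le (P Q : ℂ[X]) : l1 (P + Q) ≤ l1 P + l1 Q := by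
  rw [l1_eq (P + Q) (P.support ∪ Q.support) Polynomial.support_add,
    l1_eq P (P.support ∪ Q.support) Finset.subset_union_left,
    l1_eq Q (P.support ∪ Q.support) Finset.subset_union_right, ← Finset.sum_add_distrib]
  refine Finset.sum_le_sum fun i _ => ?_
  rw [Polynomial.coeff_add]
  exact norm_add_le _ _

theorem l1_zero : l1 0 = 0 := by simp [l1]

theorem l1_sum_le {ι : Type} (s : Finset ι) (f : ι → ℂ[X]) :
    l1 (∑ i ∈ s, f i) ≤ ∑ i ∈ s, l1 (f i) := by
  classical
  induction s using Finset.induction_on with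
  | empty => simp [l1_zero]
  | insert a s ha ih =>
    rw [Finset.sum_insert ha, Finset.sum_insert ha]
    exact (l1_add_le _ _).trans (by linarith)

theorem l1_monomial_mul (i : ℕ) (a : ℂ) (Q : ℂ[X]) :
    l1 (Polynomial.monomial i a * Q) ≤ ‖a‖ * l1 Q := by
  have h : (Polynomial.monomial i a * Q).support ⊆ Q.support.image (fun j => j + i) := by
    intro j hj
    rw [Polynomial.mem_support_iff] at hj
    rw [Finset.mem_image]
    by_cases hij : i ≤ j
    · refine ⟨j - i, ?_, by omega⟩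
      rw [Polynomial.mem_support_iff]
      intro h0
      apply hj
      rw [← Polynomial.C_mul_X_pow_eq_monomial, mul_assoc, Polynomial.coeff_C_mul, mul_comm (X ^ i),
        Polynomial.coeff_mul_X_pow', if_pos hij, h0, mul_zero]
    · exfalso
      apply hj
      rw [← Polynomial.C_mul_X_pow_eq_monomial, mul_assoc, Polynomial.coeff_C_mul, mul_comm (X ^ i),
        Polynomial.coeff_mul_X_pow', if_neg hij, mul_zero]
  rw [l1_eq _ _ h, Finset.sum_image (fun x _ y _ hxy => by simpa using hxy)]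
  unfold l1
  rw [Finset.mul_sum]
  refine Finset.sum_le_sum fun j _ => ?_
  rw [← Polynomial.C_mul_X_pow_eq_monomial, mul_assoc, Polynomial.coeff_C_mul, mul_comm (X ^ i),
    Polynomial.coeff_mul_X_pow, norm_mul]

theorem l1_mul_le (P Q : ℂ[X]) : l1 (P * Q) ≤ l1 P * l1 Q := by
  have h : P * Q = ∑ i ∈ P.support, Polynomial.monomial i (P.coeff i) * Q := by
    conv_lhs => rw [P.as_sum_support]
    rw [Finset.sum_mul]
  rw [h]
  refine (l1_sum_le _ _).trans ?_
  unfold l1
  rw [Finset.sum_mul]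
  exact Finset.sum_le_sum fun i _ => l1_monomial_mul i _ Q

theorem l1_one : l1 1 = 1 := by
  have h : (1 : ℂ[X]).support ⊆ {0} := by
    intro i hi
    rw [Polynomial.mem_support_iff, Polynomial.coeff_one] at hi
    rw [Finset.mem_singleton]
    by_contra h0
    exact hi (if_neg h0)
  rw [l1_eq _ _ h]
  simp

theorem l1_X_pow_le (n : ℕ) : l1 (X ^ n : ℂ[X]) ≤ 1 := by
  have h := l1_monomial_mul n 1 1
  rw [mul_one, l1_one, mul_one, norm_one, Polynomial.monomial_one_right_eq_X_pow] at h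
  exact h

theorem l1_pow_le (P : ℂ[X]) (m : ℕ) : l1 (P ^ m) ≤ l1 P ^ m := by
  induction m with
  | zero => rw [pow_zero, pow_zero, l1_one]
  | succ m ih =>
    rw [pow_succ, pow_succ]
    exact (l1_mul_le _ _).trans (mul_le_mul_of_nonneg_right ih (l1_nonneg _))

theorem l1_fac (m n : ℕ) : l1 ((1 + X ^ n : ℂ[X]) ^ m) ≤ 2 ^ m := by
  refine (l1_pow_le _ _).trans (pow_le_pow_left₀ (l1_nonneg _) ?_ m)
  refine (l1_add_le _ _).trans ?_
  rw [l1_one]
  linarith [l1_X_pow_le n]

theorem norm_eval_le (P : ℂ[X]) {z : ℂ} (hz : ‖z‖ ≤ 1) : ‖P.eval z‖ ≤ l1 P := by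
  rw [Polynomial.eval_eq_sum, Polynomial.sum_def]
  refine (norm_sum_le _ _).trans (Finset.sum_le_sum fun i _ => ?_)
  rw [norm_mul, norm_pow]
  exact mul_le_of_le_one_right (norm_nonneg _) (pow_le_one₀ (norm_nonneg _) hz)

/-- bounds for the nonvanishing of the limit of the derivatives -/
theorem limit_ne_zero (m n : ℕ → ℕ) (hmn : ∀ k, 1 ≤ m k ∧ 1 ≤ n k ∧ (k + 1) * m k ≤ n k)
    (p : ℕ → ℂ) (z : ℂ) (hz : ‖z‖ < 1) (hp0 : p 0 ≠ 0)
    (hp : ∀ k, p (k + 1) = p k * (1 + z ^ (n k)) ^ (m k)) (L : ℂ)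
    (hL : Tendsto p atTop (𝓝 L)) : L ≠ 0 := by
  have hr0 : 0 ≤ ‖z‖ := norm_nonneg z
  -- a bound for m r^m
  obtain ⟨C, hC⟩ : ∃ C : ℝ, ∀ k : ℕ, (k : ℝ) * ‖z‖ ^ k ≤ C := by
    have h := tendsto_self_mul_const_pow_of_lt_one hr0 hz
    obtain ⟨C, hC⟩ := h.bddAbove_range
    exact ⟨C, fun k => hC ⟨k, rfl⟩⟩
  have hx : ∀ k, (m k : ℝ) * ‖z‖ ^ (n k) ≤ C * ‖z‖ ^ k := by
    intro k
    have h1 : ‖z‖ ^ (n k) ≤ ‖z‖ ^ ((k + 1) * m k) :=
      pow_le_pow_of_le_one hr0 hz.le (hmn k).2.2
    have h2 : ‖z‖ ^ ((k + 1) * m k) = ‖z‖ ^ (m k) * ‖z‖ ^ (k * m k) := by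
      rw [← pow_add]; congr 1; ring
    have h3 : ‖z‖ ^ (k * m k) ≤ ‖z‖ ^ k :=
      pow_le_pow_of_le_one hr0 hz.le (Nat.le_mul_of_pos_right k (hmn k).1)
    have h4 : 0 ≤ ‖z‖ ^ (m k) := pow_nonneg hr0 _
    calc (m k : ℝ) * ‖z‖ ^ (n k) ≤ (m k : ℝ) * (‖z‖ ^ (m k) * ‖z‖ ^ k) := by
          refine mul_le_mul_of_nonneg_left ?_ (Nat.cast_nonneg _)
          rw [h2] at h1
          exact h1.trans (mul_le_mul_of_nonneg_left h3 h4)
      _ = ((m k : ℝ) * ‖z‖ ^ (m k)) * ‖z‖ ^ k := by ring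
      _ ≤ C * ‖z‖ ^ k := mul_le_mul_of_nonneg_right (hC _) (pow_nonneg hr0 _)
  have hsum : Summable (fun k : ℕ => C * ‖z‖ ^ k) :=
    (summable_geometric_of_lt_one hr0 hz).mul_left C
  have hC0 : 0 ≤ C := by simpa using hC 0
  -- the tail
  obtain ⟨K, hK⟩ : ∃ K, ∀ k, K ≤ k → ∑ j ∈ Finset.Ico K k, C * ‖z‖ ^ j ≤ 1 / 2 := by
    have h := hsum.hasSum.tendsto_sum_nat
    have hc := h.cauchySeq
    obtain ⟨K, hK⟩ := Metric.cauchySeq_iff'.1 hc (1 / 2) (by norm_num)
    refine ⟨K, fun k hk => ?_⟩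
    have h1 := hK k hk
    rw [Real.dist_eq] at h1
    rw [Finset.sum_Ico_eq_sub _ hk]
    exact (le_abs_self _).trans h1.le
  -- no zeros
  have hne : ∀ k, p k ≠ 0 := by
    intro k
    induction k with
    | zero => exact hp0
    | succ k ih =>
      rw [hp k]
      refine mul_ne_zero ih (pow_ne_zero _ fun h0 => ?_)
      have h1 : z ^ (n k) = -1 := by
        rw [eq_neg_iff_add_eq_zero, add_comm]; exact h0
      have h2 : ‖z‖ ^ (n k) = 1 := by rw [← norm_pow, h1, norm_neg, norm_one]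
      have h3 : ‖z‖ ^ (n k) < 1 := pow_lt_one₀ hr0 hz (by have := (hmn k).2.1; omega)
      linarith
  have hstep : ∀ k, ‖p k‖ * (1 - (m k : ℝ) * ‖z‖ ^ (n k)) ≤ ‖p (k + 1)‖ := by
    intro k
    rw [hp k, norm_mul, norm_pow]
    refine mul_le_mul_of_nonneg_left ?_ (norm_nonneg _)
    have h1 : 1 - ‖z‖ ^ (n k) ≤ ‖1 + z ^ (n k)‖ := by
      have h := norm_sub_le_norm_add (1 : ℂ) (z ^ (n k))
      rw [norm_one, norm_pow] at h
      exact h
    have h2 : ‖z‖ ^ (n k) ≤ 1 := pow_le_one₀ hr0 hz.le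
    have h3 := one_add_mul_le_pow (a := -‖z‖ ^ (n k)) (by linarith) (m k)
    have h4 : (1 + -‖z‖ ^ (n k)) ^ (m k) ≤ ‖1 + z ^ (n k)‖ ^ (m k) :=
      pow_le_pow_left₀ (by linarith) (by linarith) _
    linarith
  have hlow : ∀ k, K ≤ k → ‖p K‖ * (1 - ∑ j ∈ Finset.Ico K k, C * ‖z‖ ^ j) ≤ ‖p k‖ := by
    intro k hk
    induction k, hk using Nat.le_induction with
    | base => simp
    | succ k hk ih =>
      have h1 := hK k hk
      have h2 := hK (k + 1) (by omega)
      rw [Finset.sum_Ico_succ_top hk] at h2 ⊢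
      have h3 : 0 ≤ ∑ j ∈ Finset.Ico K k, C * ‖z‖ ^ j :=
        Finset.sum_nonneg fun j _ => mul_nonneg hC0 (pow_nonneg hr0 _)
      have h4 := hstep k
      have h5 := hx k
      have h6 : 0 ≤ C * ‖z‖ ^ k := mul_nonneg hC0 (pow_nonneg hr0 _)
      have h7 : ‖p k‖ * (1 - C * ‖z‖ ^ k) ≤ ‖p (k + 1)‖ :=
        (mul_le_mul_of_nonneg_left (by linarith) (norm_nonneg _)).trans h4
      refine le_trans ?_ h7
      refine le_trans ?_ (mul_le_mul_of_nonneg_right ih (by linarith))
      rw [mul_assoc]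
      refine mul_le_mul_of_nonneg_left ?_ (norm_nonneg _)
      nlinarith [mul_nonneg h3 h6]
  have hlow2 : ∀ k, K ≤ k → ‖p K‖ / 2 ≤ ‖p k‖ := by
    intro k hk
    have h1 := hlow k hk
    have h2 := hK k hk
    have h3 : 0 ≤ ‖p K‖ := norm_nonneg _
    nlinarith
  have hlim : ‖p K‖ / 2 ≤ ‖L‖ :=
    ge_of_tendsto hL.norm (eventually_atTop.2 ⟨K, hlow2⟩)
  have hpos : 0 < ‖p K‖ := norm_pos_iff.2 (hne K)
  rw [← norm_pos_iff]
  linarith

end LIM

open LIM Filter Topology Finset in
theorem t_LIM (hDAP : S_DAP) : S_LIM := by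
  intro P F m n lam hP0 hF0 hl0 hP hF hd hlam hl1 hl2 hmn hG
  set D : ℕ → ℂ[X] := fun k => Dp (P k) (m k) (n k) with hD
  have hb0 : ∀ k, l1 (P k) * lam k ≤ (1 / 2) ^ k := by
    intro k
    induction k with
    | zero => rw [hP0, hl0, l1_one]; norm_num
    | succ k ih =>
      have h1 : l1 (P (k + 1)) ≤ l1 (P k) * 2 ^ (m k) := by
        rw [hP k]
        exact (l1_mul_le _ _).trans (mul_le_mul_of_nonneg_left (l1_fac _ _) (l1_nonneg _))
      calc l1 (P (k + 1)) * lam (k + 1) ≤ (l1 (P k) * 2 ^ (m k)) * lam (k + 1) :=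
            mul_le_mul_of_nonneg_right h1 (hlam _).le
        _ = l1 (P k) * (lam (k + 1) * 2 ^ (m k)) := by ring
        _ ≤ l1 (P k) * (lam k / 2) := mul_le_mul_of_nonneg_left (hl1 k) (l1_nonneg _)
        _ = (l1 (P k) * lam k) / 2 := by ring
        _ ≤ (1 / 2) ^ k / 2 := by linarith
        _ = (1 / 2) ^ (k + 1) := by ring
  have hb : ∀ k, l1 (D k) ≤ 4 * (1 / 2) ^ k := by
    intro k
    have h1 := (hDAP (P k) (m k) (n k) (hmn k).1 (hmn k).2.1).2.1
    have h2 : (4 : ℝ) * 2 ^ (m k) / ((m k + 1) * n k) = 4 * (2 ^ (m k) / ((m k + 1) * n k)) := by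
      ring
    rw [h2] at h1
    refine h1.trans ?_
    calc l1 (P k) * (4 * (2 ^ (m k) / ((m k + 1) * n k)))
        ≤ l1 (P k) * (4 * lam k) :=
          mul_le_mul_of_nonneg_left (mul_le_mul_of_nonneg_left (hl2 k) (by norm_num)) (l1_nonneg _)
      _ = 4 * (l1 (P k) * lam k) := by ring
      _ ≤ 4 * (1 / 2) ^ k := by linarith [hb0 k]
  have hFsum : ∀ K, F K = X + ∑ k ∈ Finset.range K, D k := by
    intro K
    induction K with
    | zero => rw [hF0]; simp
    | succ K ih => rw [hF K, ih, Finset.sum_range_succ, add_assoc]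
  have hgeo : Summable (fun k : ℕ => 4 * (1 / 2 : ℝ) ^ k) :=
    (summable_geometric_of_lt_one (by norm_num) (by norm_num)).mul_left 4
  -- product summability
  have htl1 : ∀ k, ∑' j, ‖(D k).coeff j‖ = l1 (D k) := by
    intro k
    unfold l1
    refine tsum_eq_sum fun j hj => ?_
    rw [Polynomial.notMem_support_iff.1 hj, norm_zero]
  have hs : Summable (fun p : ℕ × ℕ => ‖(D p.1).coeff p.2‖) := by
    rw [summable_prod_of_nonneg (fun _ => norm_nonneg _)]
    constructor
    · intro k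
      refine summable_of_ne_finset_zero (s := (D k).support) fun j hj => ?_
      show ‖(D k).coeff j‖ = 0
      rw [Polynomial.notMem_support_iff.1 hj, norm_zero]
    · refine Summable.of_nonneg_of_le (fun k => tsum_nonneg fun _ => norm_nonneg _) (fun k => ?_) hgeo
      show ∑' j, ‖(D k).coeff j‖ ≤ _
      rw [htl1]
      exact hb k
  have hsw : ∀ w : ℂ, ‖w‖ ≤ 1 →
      Summable (fun p : ℕ × ℕ => (D p.1).coeff p.2 * w ^ p.2) := by
    intro w hw
    refine Summable.of_norm_bounded hs fun p => ?_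
    rw [norm_mul, norm_pow]
    exact mul_le_of_le_one_right (norm_nonneg _) (pow_le_one₀ (norm_nonneg _) hw)
  have hsc : Summable (fun p : ℕ × ℕ => (D p.1).coeff p.2) := Summable.of_norm hs
  let a : ℕ → ℂ := fun j => (X : ℂ[X]).coeff j + ∑' k, (D k).coeff j
  have hX : ∀ w : ℂ, HasSum (fun j => (X : ℂ[X]).coeff j * w ^ j) w := by
    intro w
    have h := hasSum_single (f := fun j => (X : ℂ[X]).coeff j * w ^ j) 1 (fun j hj => by
      rw [Polynomial.coeff_X_of_ne_one hj, zero_mul])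
    simpa using h
  have hss : Summable (fun p : ℕ × ℕ => ‖(D p.2).coeff p.1‖) :=
    (Equiv.prodComm ℕ ℕ).summable_iff.1 (by simpa [Function.comp_def] using hs)
  have hcol : Summable (fun j => ∑' k, ‖(D k).coeff j‖) := hss.prod
  have ha : Summable (fun j => ‖a j‖) := by
    have h1 : Summable (fun j => ‖(X : ℂ[X]).coeff j‖) := by
      refine summable_of_ne_finset_zero (s := {1}) fun j hj => ?_
      rw [Polynomial.coeff_X_of_ne_one (by simpa using hj), norm_zero]
    refine Summable.of_nonneg_of_le (fun j => norm_nonneg _) (fun j => ?_) (h1.add hcol)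
    refine (norm_add_le _ _).trans (add_le_add le_rfl ?_)
    exact norm_tsum_le_tsum_norm (hss.prod_factor j)
  let f : ℂ → ℂ := fun w => ∑' j, a j * w ^ j
  have hf : ∀ w : ℂ, ‖w‖ ≤ 1 → f w = w + ∑' k, (D k).eval w := by
    intro w hw
    have h1 := hsw w hw
    have h1s : Summable (fun p : ℕ × ℕ => (D p.2).coeff p.1 * w ^ p.1) :=
      (Equiv.prodComm ℕ ℕ).summable_iff.1 (by simpa [Function.comp_def] using h1)
    have h2 : ∀ j, a j * w ^ j = (X : ℂ[X]).coeff j * w ^ j + ∑' k, (D k).coeff j * w ^ j := by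
      intro j
      rw [tsum_mul_right, ← add_mul]
    have h3 : f w = ∑' j, ((X : ℂ[X]).coeff j * w ^ j + ∑' k, (D k).coeff j * w ^ j) :=
      tsum_congr h2
    have h4 : Summable (fun j => ∑' k, (D k).coeff j * w ^ j) := h1s.prod
    have h5 : ∑' j, ∑' k, (D k).coeff j * w ^ j = ∑' k, ∑' j, (D k).coeff j * w ^ j :=
      Summable.tsum_comm (f := fun k j => (D k).coeff j * w ^ j) h1
    have h6 : ∀ k, ∑' j, (D k).coeff j * w ^ j = (D k).eval w := by
      intro k
      rw [Polynomial.eval_eq_sum, Polynomial.sum_def]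
      refine tsum_eq_sum fun j hj => ?_
      rw [Polynomial.notMem_support_iff.1 hj, zero_mul]
    rw [h3, (hX w).summable.tsum_add h4, (hX w).tsum_eq, h5, tsum_congr h6]
  -- uniform convergence
  have hDb : ∀ k (w : ℂ), w ∈ Metric.closedBall (0 : ℂ) 1 → ‖(D k).eval w‖ ≤ 4 * (1 / 2) ^ k := by
    intro k w hw
    exact (norm_eval_le _ (by simpa using hw)).trans (hb k)
  have hFe : ∀ K (w : ℂ), (F K).eval w = w + ∑ k ∈ Finset.range K, (D k).eval w := by
    intro K w
    rw [hFsum K, Polynomial.eval_add, Polynomial.eval_X, Polynomial.eval_finsetSum]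
  have hunif : TendstoUniformlyOn (fun K (w : ℂ) => (F K).eval w) f atTop
      (Metric.closedBall (0 : ℂ) 1) := by
    have h1 := tendstoUniformlyOn_tsum_nat hgeo hDb
    have h2 : TendstoUniformlyOn (fun (_ : ℕ) (w : ℂ) => w) (fun w => w) atTop
        (Metric.closedBall (0 : ℂ) 1) := by
      intro u hu
      exact Eventually.of_forall fun _ x _ => refl_mem_uniformity hu
    have h3 := h2.add h1
    refine (h3.congr (Eventually.of_forall fun K w _ => ?_)).congr_right fun w hw => ?_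
    · show w + ∑ k ∈ Finset.range K, (D k).eval w = _
      rw [hFe]
    · show w + ∑' k, (D k).eval w = _
      rw [hf w (by simpa using hw)]
  have herr : ∀ K (w : ℂ), ‖w‖ ≤ 1 → ‖f w - (F K).eval w‖ ≤ 8 * (1 / 2) ^ K := by
    intro K w hw
    have hsK : Summable (fun k => (D k).eval w) :=
      Summable.of_norm_bounded hgeo fun k => hDb k w (by simpa using hw)
    have h1 := hsK.sum_add_tsum_nat_add K
    have h2 : f w - (F K).eval w = ∑' k, (D (k + K)).eval w := by
      rw [hf w hw, hFe, ← h1]; ring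
    rw [h2]
    have hg2 : HasSum (fun k : ℕ => 4 * (1 / 2 : ℝ) ^ (k + K)) (8 * (1 / 2) ^ K) := by
      have h := (hasSum_geometric_two).mul_left (4 * (1 / 2 : ℝ) ^ K)
      have e1 : (fun k : ℕ => 4 * (1 / 2 : ℝ) ^ (k + K)) =
          fun k => 4 * (1 / 2) ^ K * (1 / 2) ^ k := by
        funext k; rw [pow_add]; ring
      have e2 : 8 * (1 / 2 : ℝ) ^ K = 4 * (1 / 2) ^ K * 2 := by ring
      rw [e1, e2]
      exact h
    exact tsum_of_norm_bounded hg2 fun k => hDb (k + K) w (by simpa using hw)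
  refine ⟨a, ha, ?_, ?_⟩
  · intro z hz
    have hloc : TendstoLocallyUniformlyOn (fun K (w : ℂ) => (F K).eval w) f atTop
        (Metric.ball (0 : ℂ) 1) :=
      (hunif.mono Metric.ball_subset_closedBall).tendstoLocallyUniformlyOn
    have hder := hloc.deriv (Eventually.of_forall fun K =>
      (F K).differentiable.differentiableOn) Metric.isOpen_ball
    have hpt := hder.tendsto_at (show z ∈ Metric.ball (0 : ℂ) 1 by simpa using hz)
    have hPt : Tendsto (fun k => (P k).eval z) atTop (𝓝 (deriv f z)) := by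
      refine hpt.congr fun K => ?_
      show deriv (fun w => (F K).eval w) z = _
      rw [Polynomial.deriv, hd K]
    refine limit_ne_zero m n hmn (fun k => (P k).eval z) z hz ?_ ?_ _ hPt
    · show (P 0).eval z ≠ 0
      rw [hP0]; simp
    · intro k
      show (P (k + 1)).eval z = _
      rw [hP k]; simp
  · have hcont : ContinuousOn f (Metric.sphere (0 : ℂ) 1) :=
      (hunif.continuousOn (Frequently.of_forall fun K =>
        (F K).continuous.continuousOn)).mono Metric.sphere_subset_closedBall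
    have hcomp : IsCompact (f '' Metric.sphere (0 : ℂ) 1) :=
      (isCompact_sphere _ _).image_of_continuousOn hcont
    let U : Set ℂ := {u | 1 / 8 < ‖u - 1‖ ∧ ‖u - 1‖ < 1}
    have hcn : Continuous (fun u : ℂ => ‖u - 1‖) := by fun_prop
    have hU : IsOpen U := (isOpen_lt continuous_const hcn).inter (isOpen_lt hcn continuous_const)
    have hUne : U.Nonempty := ⟨3 / 2, by
      show 1 / 8 < ‖(3 / 2 : ℂ) - 1‖ ∧ ‖(3 / 2 : ℂ) - 1‖ < 1
      have : (3 / 2 : ℂ) - 1 = ((1 / 2 : ℝ) : ℂ) := by push_cast; ring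
      rw [this, Complex.norm_real, Real.norm_eq_abs]
      norm_num [abs_of_pos]⟩
    have hsub : U ⊆ f '' Metric.sphere (0 : ℂ) 1 := by
      intro u hu
      have hgood : ∀ k, ∃ z, Good (P k) (F k) (lam k) u z := by
        intro k
        induction k with
        | zero =>
          refine ⟨1, ?_⟩
          rw [hP0, hF0, hl0]
          refine ⟨by simp, by simp, ?_, ?_⟩
          · simp only [Polynomial.eval_one, Polynomial.eval_X, norm_one, mul_one]
            exact hu.1.le
          · simp only [Polynomial.eval_one, Polynomial.eval_X, norm_one, mul_one]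
            exact hu.2.le
        | succ k ih =>
          obtain ⟨z, hz⟩ := ih
          exact hG k u z hz
      choose zz hzz using hgood
      have hdist : ∀ k, dist u (f (zz k)) ≤ 9 * (1 / 2) ^ k := by
        intro k
        obtain ⟨h1, -, -, h4⟩ := hzz k
        have h5 : ‖(P k).eval (zz k)‖ ≤ l1 (P k) := norm_eval_le _ h1.le
        have h6 : ‖u - (F k).eval (zz k)‖ ≤ (1 / 2) ^ k := by
          refine h4.trans ((mul_le_mul_of_nonneg_left h5 (hlam k).le).trans ?_)
          rw [mul_comm]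
          exact hb0 k
        have h7 := herr k (zz k) h1.le
        rw [dist_eq_norm]
        have h8 : u - f (zz k) = (u - (F k).eval (zz k)) - (f (zz k) - (F k).eval (zz k)) := by
          ring
        rw [h8]
        refine (norm_sub_le _ _).trans ?_
        linarith
      have hclos : u ∈ closure (f '' Metric.sphere (0 : ℂ) 1) := by
        rw [Metric.mem_closure_iff]
        intro ε hε
        obtain ⟨k, hk⟩ := exists_pow_lt_of_lt_one (show 0 < ε / 9 by positivity)
          (show (1 / 2 : ℝ) < 1 by norm_num)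
        refine ⟨f (zz k), ⟨zz k, by simpa using (hzz k).1, rfl⟩, ?_⟩
        have := hdist k
        linarith
      rwa [hcomp.isClosed.closure_eq] at hclos
    have hpos : 0 < MeasureTheory.volume U := hU.measure_pos _ hUne
    exact (lt_of_lt_of_le hpos (MeasureTheory.measure_mono hsub)).ne'

end Pool.Agent.H337_area
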